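import Pool.Agent.U845.XM.Stm
import Pool.Agent.N848.Q.J
import Pool.Agent.Y486.FK.Amb1
import Pool.Agent.Y688.FK.Amb2
import Pool.Agent.Y629.FK.Sq
import Pool.Agent.Y168.FK.Leg

/-!
# Project XM, package CL: a class group without elements of order four gives a good Rédei system
-/

set_option autoImplicit false
set_option linter.unusedVariables false

namespace Pool.Agent.U375.XM

open Finset
open Pool.Agent.Y703.CQ (nr)
open Pool.Agent.N973.ND (uu)
open Pool.Agent.N916.GB (Po sy Vt Gd z2 z2_add_self z2_sq nr_recip z2_eq_of_add)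
open Pool.Agent.N848.Q (ns ns_zero ns_nat ns_leg ns_mul ns_one ns_neg_one mem_Vt sum_Vt sy_odd sy_two)
open Pool.Agent.U845.XM (Par Lk S_LK S_CL)
open Pool.Agent.Y755.FK (Rn S_AMB1 S_AMB S_SQ S_LEG)

open scoped Classical

lemma ns_prod {p : ℕ} (hp : p.Prime) (W : Finset ℕ) (hW : ∀ q ∈ W, q.Prime ∧ q ≠ p) :
    ¬ (p : ℤ) ∣ ((∏ q ∈ W, q : ℕ) : ℤ) ∧ ns p ((∏ q ∈ W, q : ℕ) : ℤ) = ∑ q ∈ W, nr p q := by
  induction W using Finset.induction_on with
  | empty =>
    rw [prod_empty, sum_empty, Nat.cast_one, ns_one]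
    refine ⟨fun h => ?_, rfl⟩
    have := Int.natCast_dvd_natCast.1 (by simpa using h : ((p : ℕ) : ℤ) ∣ ((1 : ℕ) : ℤ))
    exact hp.one_lt.ne' (Nat.dvd_one.1 this)
  | insert a S ha ih =>
    have h3 : ∀ q ∈ S, q.Prime ∧ q ≠ p := fun q hq => hW q (mem_insert_of_mem hq)
    obtain ⟨i1, i2⟩ := ih h3
    have h4 := hW a (mem_insert_self a S)
    have h5 : ¬ (p : ℤ) ∣ (a : ℤ) := by
      rw [Int.natCast_dvd_natCast]
      intro h
      exact h4.2 ((Nat.prime_dvd_prime_iff_eq hp h4.1).1 h).symm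
    rw [prod_insert ha, sum_insert ha, Nat.cast_mul, ns_mul hp h5 i1, i2, ns_nat]
    refine ⟨fun h => ?_, rfl⟩
    rcases (Nat.prime_iff_prime_int.1 hp).dvd_or_dvd h with h | h
    · exact h5 h
    · exact i1 h

lemma dvd_prod_iff {p : ℕ} (hp : p.Prime) (W : Finset ℕ) (hW : ∀ q ∈ W, q.Prime) :
    p ∣ ∏ q ∈ W, q ↔ p ∈ W := by
  constructor
  · intro h
    obtain ⟨q, hq, h1⟩ := (hp.prime.dvd_finsetProd_iff _).1 h
    rwa [(Nat.prime_dvd_prime_iff_eq hp (hW q hq)).1 h1]
  · intro h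
    exact dvd_prod_of_mem _ h

lemma Vt_prime {t : Bool} {S : Finset ℕ} (hS : ∀ p ∈ S, Po p) : ∀ q ∈ Vt t S, q.Prime := by
  intro q hq
  rcases mem_Vt.1 hq with ⟨_, rfl⟩ | h
  · exact Nat.prime_two
  · exact (hS q h).1

lemma alg1 : ∀ r s u e f : ZMod 2, (r * e + s * u) + (f + u * (1 + s + u)) = r * e + f := by
  decide

lemma alg2 : ∀ u e f : ZMod 2, 0 + (f + u * (1 + 0 + u)) = 0 * e + f := by
  decide

/-- the column equation in terms of symbols -/
lemma Lk_eq {t : Bool} {r s : ZMod 2} {S : Finset ℕ} (hS : ∀ p ∈ S, Po p)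
    (hok : t = false ↔ r = 0 ∧ s = 0) (hU : ∑ p ∈ S, uu p = 1 + s) (x : ℕ → ZMod 2) {p : ℕ}
    (hp : p ∈ S) :
    Lk t r s S x p = ns p ((∏ q ∈ ((Vt t S).erase p).filter (fun q => x q = 1), q : ℕ) : ℤ) +
      x p * ns p (((if r = 1 then 2 else 1) * ∏ q ∈ S.erase p, q : ℕ) : ℤ) := by
  have hp' := hS p hp
  have hpV : p ∈ Vt t S := mem_Vt.2 (Or.inr hp)
  have hpr := Vt_prime (t := t) hS
  have e1 := (ns_prod hp'.1 (((Vt t S).erase p).filter (fun q => x q = 1)) (fun q hq => by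
    have h1 := (mem_filter.1 hq).1
    exact ⟨hpr q (mem_of_mem_erase h1), ne_of_mem_erase h1⟩)).2
  have e2 := ns_prod hp'.1 (S.erase p) (fun q hq =>
    ⟨(hS q (mem_of_mem_erase hq)).1, ne_of_mem_erase hq⟩)
  have h2 : ¬ (p : ℤ) ∣ ((2 : ℕ) : ℤ) := by
    rw [Int.natCast_dvd_natCast]
    exact fun h => hp'.2 ((Nat.prime_dvd_prime_iff_eq hp'.1 Nat.prime_two).1 h)
  have e3 : ns p (((if r = 1 then 2 else 1) * ∏ q ∈ S.erase p, q : ℕ) : ℤ) =
      r * nr p 2 + ∑ q ∈ S.erase p, nr p q := by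
    rcases z2 r with hr | hr
    · rw [hr, if_neg (by decide), one_mul, e2.2]
      ring
    · rw [hr, if_pos rfl, Nat.cast_mul, ns_mul hp'.1 h2 e2.1, e2.2, ns_nat]
      ring
  rw [e1, e3]
  unfold Pool.Agent.U845.XM.Lk
  rw [← sum_erase_add _ _ hpV, if_pos rfl, add_zero]
  have h3 : ∀ q ∈ (Vt t S).erase p, (if q = p then (0 : ZMod 2) else x q * sy r s q p +
      x p * sy r s p q) = (if x q = 1 then nr p q else 0) + x p * sy r s p q := by
    intro q hq
    rw [if_neg (ne_of_mem_erase hq), sy_odd hp']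
    rcases z2 (x q) with h | h
    · rw [h, if_neg (by decide), zero_mul]
    · rw [h, if_pos rfl, one_mul]
  rw [sum_congr rfl h3, sum_add_distrib, ← sum_filter, ← mul_sum]
  congr 2
  -- the sum of the symbols
  have h4 : ∑ q ∈ (Vt t S).erase p, sy r s p q =
      (if t = true then r * nr p 2 + s * uu p else 0) + ∑ q ∈ S.erase p, nr q p := by
    have h5 : ∑ q ∈ Vt t S, sy r s p q = (if t = true then sy r s p 2 else 0) +
        ∑ q ∈ S, sy r s p q := sum_Vt hS _
    have h6 : ∑ q ∈ Vt t S, sy r s p q = ∑ q ∈ (Vt t S).erase p, sy r s p q + sy r s p p :=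
      (sum_erase_add _ _ hpV).symm
    have h7 : ∑ q ∈ S, sy r s p q = ∑ q ∈ S.erase p, sy r s p q + sy r s p p :=
      (sum_erase_add _ _ hp).symm
    have h8 : ∑ q ∈ S.erase p, sy r s p q = ∑ q ∈ S.erase p, nr q p :=
      sum_congr rfl fun q hq => sy_odd (hS q (mem_of_mem_erase hq))
    rw [sy_two] at h5
    rw [← h8]
    have h9 : ∑ q ∈ (Vt t S).erase p, sy r s p q + sy r s p p =
        ((if t = true then r * nr p 2 + s * uu p else 0) + ∑ q ∈ S.erase p, sy r s p q) +
          sy r s p p := by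
      rw [← h6, h5, h7]
      ring
    exact add_right_cancel h9
  have h5 : ∑ q ∈ S.erase p, nr q p = ∑ q ∈ S.erase p, nr p q + uu p * ∑ q ∈ S.erase p, uu q := by
    rw [mul_sum, ← sum_add_distrib]
    refine sum_congr rfl fun q hq => ?_
    have h6 := nr_recip hp' (hS q (mem_of_mem_erase hq)) (ne_of_mem_erase hq).symm
    rw [← h6, ← add_assoc, z2_add_self, zero_add]
  have h6 : ∑ q ∈ S.erase p, uu q = 1 + s + uu p := by
    have h7 : ∑ q ∈ S.erase p, uu q + uu p = 1 + s := by rw [sum_erase_add _ _ hp, hU]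
    rw [← h7, add_assoc, z2_add_self, add_zero]
  rw [h4, h5, h6]
  by_cases ht : t = true
  · rw [if_pos ht]
    exact alg1 _ _ _ _ _
  · obtain ⟨hr, hs⟩ := hok.1 (by simpa using ht)
    rw [if_neg ht, hr, hs]
    exact alg2 _ _ _

/-- the Jacobi symbol of a square unit -/
lemma jac_of {p : ℕ} (hp : p.Prime) {a : ℤ} (h : ¬ (p : ℤ) ∣ a) (h0 : ns p a = 0) :
    jacobiSym a p = 1 := by
  have : Fact p.Prime := ⟨hp⟩
  rw [← jacobiSym.legendreSym.to_jacobiSym, ns_leg h, if_pos h0]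

lemma mem_S_of {r : ZMod 2} {n m p : ℕ} (hm : m ≠ 0) (hnm : n = if r = 1 then 2 * m else m)
    (hp : p.Prime) (h2 : p ≠ 2) (h : p ∣ n) : p ∈ m.primeFactors := by
  refine Nat.mem_primeFactors.2 ⟨hp, ?_, hm⟩
  rw [hnm] at h
  split_ifs at h
  · exact (hp.dvd_mul.1 h).resolve_left fun h3 =>
      h2 ((Nat.prime_dvd_prime_iff_eq hp Nat.prime_two).1 h3)
  · exact h

/-- the local conditions, from the column equations; `B = e b`, `n = b c` -/
lemma local_cond {t : Bool} {r s : ZMod 2} {n m : ℕ} (hm0 : m ≠ 0) (hmsq : Squarefree m)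
    (hnm : n = if r = 1 then 2 * m else m) (hn : Squarefree n)
    (hS : ∀ p ∈ m.primeFactors, Po p)
    (hok : t = false ↔ r = 0 ∧ s = 0) (hU : ∑ p ∈ m.primeFactors, uu p = 1 + s) (x : ℕ → ZMod 2)
    (hx : ∀ p ∈ Vt t m.primeFactors, Lk t r s m.primeFactors x p = 0) {e b c : ℕ}
    (he : e = 1 ∨ e = 2)
    (hB : ∏ q ∈ (Vt t m.primeFactors).filter (fun q => x q = 1), q = e * b) (hbc : n = b * c)
    {p : ℕ} (hp : p.Prime) (hp2 : p ≠ 2) :
    (p ∣ c → jacobiSym ((e * b : ℕ) : ℤ) p = 1) ∧ (p ∣ b → jacobiSym ((e * c : ℕ) : ℤ) p = 1) := by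
  set S := m.primeFactors with hSd
  have hpr := Vt_prime (t := t) hS
  have hprf : ∀ q ∈ (Vt t S).filter (fun q => x q = 1), q.Prime := fun q hq =>
    hpr q (mem_filter.1 hq).1
  have hpe : ¬ p ∣ e := by
    rcases he with rfl | rfl
    · exact fun h => hp.one_lt.ne' (Nat.dvd_one.1 h)
    · exact fun h => hp2 ((Nat.prime_dvd_prime_iff_eq hp Nat.prime_two).1 h)
  have hcop : ∀ q : ℕ, q.Prime → q ∣ b → ¬ q ∣ c := by
    intro q hq h1 h2
    have h3 : q * q ∣ n := by
      rw [hbc]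
      exact Nat.mul_dvd_mul h1 h2
    exact hq.one_lt.ne' (Nat.isUnit_iff.1 (hn q h3))
  have hmpr : ∏ q ∈ S, q = m := Nat.prod_primeFactors_of_squarefree hmsq
  constructor
  · intro h
    have hpn : p ∣ n := by
      rw [hbc]
      exact h.mul_left _
    have hpS : p ∈ S := mem_S_of hm0 hnm hp hp2 hpn
    have hpV : p ∈ Vt t S := mem_Vt.2 (Or.inr hpS)
    have hpb : ¬ p ∣ b := fun h1 => hcop p hp h1 h
    have hpB : ¬ p ∣ e * b := fun h1 => (hp.dvd_mul.1 h1).elim hpe hpb
    have hxp : x p ≠ 1 := by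
      intro h1
      apply hpB
      rw [← hB]
      exact dvd_prod_of_mem _ (mem_filter.2 ⟨hpV, h1⟩)
    have hxp0 : x p = 0 := (z2 _).resolve_right hxp
    have h1 := hx p hpV
    rw [Lk_eq hS hok hU x hpS, hxp0, zero_mul, add_zero] at h1
    have h2 : ((Vt t S).erase p).filter (fun q => x q = 1) = (Vt t S).filter (fun q => x q = 1) := by
      ext q
      simp only [mem_filter, mem_erase]
      constructor
      · rintro ⟨⟨_, h3⟩, h4⟩
        exact ⟨h3, h4⟩
      · rintro ⟨h3, h4⟩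
        refine ⟨⟨?_, h3⟩, h4⟩
        rintro rfl
        exact hxp h4
    rw [h2, hB] at h1
    refine jac_of hp ?_ h1
    rwa [Int.natCast_dvd_natCast]
  · intro h
    have hpn : p ∣ n := by
      rw [hbc]
      exact h.mul_right _
    have hpS : p ∈ S := mem_S_of hm0 hnm hp hp2 hpn
    have hpV : p ∈ Vt t S := mem_Vt.2 (Or.inr hpS)
    have hpc : ¬ p ∣ c := hcop p hp h
    have hxp : x p = 1 := by
      have h1 : p ∣ ∏ q ∈ (Vt t S).filter (fun q => x q = 1), q := by
        rw [hB]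
        exact h.mul_left _
      exact (mem_filter.1 ((dvd_prod_iff hp _ hprf).1 h1)).2
    obtain ⟨b2, hb2⟩ := h
    have h1 := hx p hpV
    rw [Lk_eq hS hok hU x hpS, hxp, one_mul] at h1
    have h2 : ∏ q ∈ (Vt t S).filter (fun q => x q = 1), q =
        p * ∏ q ∈ ((Vt t S).erase p).filter (fun q => x q = 1), q := by
      have h3 : (Vt t S).filter (fun q => x q = 1) =
          insert p (((Vt t S).erase p).filter (fun q => x q = 1)) := by
        ext q
        simp only [mem_filter, mem_insert, mem_erase]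
        constructor
        · rintro ⟨h3, h4⟩
          by_cases h5 : q = p
          · exact Or.inl h5
          · exact Or.inr ⟨⟨h5, h3⟩, h4⟩
        · rintro (rfl | ⟨⟨_, h3⟩, h4⟩)
          · exact ⟨hpV, hxp⟩
          · exact ⟨h3, h4⟩
      rw [h3, prod_insert]
      simp
    have h3 : ∏ q ∈ ((Vt t S).erase p).filter (fun q => x q = 1), q = e * b2 := by
      apply Nat.eq_of_mul_eq_mul_left hp.pos
      rw [← h2, hB, hb2]
      ring
    have h4 : (if r = 1 then 2 else 1) * ∏ q ∈ S.erase p, q = b2 * c := by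
      apply Nat.eq_of_mul_eq_mul_left hp.pos
      have h5 : p * ∏ q ∈ S.erase p, q = m := by
        rw [mul_prod_erase S (fun q => q) hpS, hmpr]
      have h6 : p * ((if r = 1 then 2 else 1) * ∏ q ∈ S.erase p, q) = n := by
        rw [hnm]
        split_ifs
        · rw [← h5]
          ring
        · rw [one_mul, h5]
      rw [h6, hbc, hb2]
      ring
    rw [h3, h4] at h1
    have hb0 : b2 ≠ 0 := by
      rintro rfl
      rw [mul_zero] at hb2
      rw [hb2, zero_mul] at hbc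
      rw [hbc] at hn
      exact hn.ne_zero rfl
    have hpb2 : ¬ p ∣ b2 := by
      intro h5
      have h6 : p * p ∣ n := by
        rw [hbc, hb2]
        exact (Nat.mul_dvd_mul_left p h5).mul_right _
      exact hp.one_lt.ne' (Nat.isUnit_iff.1 (hn p h6))
    have d1 : ¬ (p : ℤ) ∣ (e : ℤ) := by rwa [Int.natCast_dvd_natCast]
    have d2 : ¬ (p : ℤ) ∣ (b2 : ℤ) := by rwa [Int.natCast_dvd_natCast]
    have d3 : ¬ (p : ℤ) ∣ (c : ℤ) := by rwa [Int.natCast_dvd_natCast]
    rw [Nat.cast_mul, Nat.cast_mul, ns_mul hp d1 d2, ns_mul hp d2 d3] at h1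
    refine jac_of hp ?_ ?_
    · rw [Nat.cast_mul]
      exact fun h5 => ((Nat.prime_iff_prime_int.1 hp).dvd_or_dvd h5).elim d1 d3
    · rw [Nat.cast_mul, ns_mul hp d1 d3, ← h1]
      generalize ns p (e : ℤ) = u
      generalize ns p (b2 : ℤ) = v
      generalize ns p (c : ℤ) = w
      revert u v w
      decide

/-- the product of the primes of the discriminant -/
lemma prod_Vt {t : Bool} {r s : ZMod 2} {n m : ℕ} (hmsq : Squarefree m)
    (hnm : n = if r = 1 then 2 * m else m) (h4 : m % 4 = if s = 0 then 3 else 1)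
    (hok : t = false ↔ r = 0 ∧ s = 0) (hS : ∀ p ∈ m.primeFactors, Po p) :
    ∏ q ∈ Vt t m.primeFactors, q = Rn n := by
  have hmpr : ∏ q ∈ m.primeFactors, q = m := Nat.prod_primeFactors_of_squarefree hmsq
  unfold Vt Rn
  by_cases ht : t = true
  · have h2 : 2 ∉ m.primeFactors := fun h => (hS 2 h).2 rfl
    rw [if_pos ht, prod_insert h2, hmpr]
    rcases z2 r with hr | hr
    · have hs : s = 1 := by
        refine (z2 s).resolve_left fun hs => ?_
        have := hok.2 ⟨hr, hs⟩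
        rw [ht] at this
        exact absurd this (by decide)
      rw [hs, if_neg (by decide)] at h4
      rw [hr, if_neg (by decide)] at hnm
      rw [hnm, if_pos h4]
    · rw [hr, if_pos rfl] at hnm
      have h5 : n % 4 ≠ 1 := by
        rw [hnm]
        omega
      rw [if_neg h5, hnm]
  · obtain ⟨hr, hs⟩ := hok.1 (by simpa using ht)
    rw [if_neg ht, hmpr]
    rw [hs, if_pos rfl] at h4
    rw [hr, if_neg (by decide)] at hnm
    rw [hnm, if_neg (by omega)]

/-- the ideal of the square root -/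
lemma sqrt_ideal {K : Type} [Field K] [NumberField K] {n : ℕ} (hn : n ≠ 0)
    (hz : ∃ z : K, z ^ 2 = -(n : K)) :
    ∃ I : nonZeroDivisors (Ideal (NumberField.RingOfIntegers K)),
      (I : Ideal (NumberField.RingOfIntegers K)) ^ 2 =
        Ideal.span {((n : ℕ) : NumberField.RingOfIntegers K)} ∧ ClassGroup.mk0 I = 1 := by
  obtain ⟨z, hz⟩ := hz
  have hi : IsIntegral ℤ z := by
    refine IsIntegral.of_pow (n := 2) (by norm_num) ?_
    rw [hz]
    have h1 := (isIntegral_algebraMap (R := ℤ) (A := K) (x := (n : ℤ))).neg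
    simpa using h1
  let s : NumberField.RingOfIntegers K := ⟨z, hi⟩
  have hs : s ^ 2 = -((n : ℕ) : NumberField.RingOfIntegers K) := by
    apply NumberField.RingOfIntegers.coe_injective
    have h1 : algebraMap (NumberField.RingOfIntegers K) K s = z := rfl
    rw [map_pow, h1, hz, map_neg, map_natCast]
  have hs0 : s ≠ 0 := by
    intro h0
    rw [h0] at hs
    have h1 : ((n : ℕ) : NumberField.RingOfIntegers K) = 0 := by
      have := hs
      simp only [ne_eq, OfNat.ofNat_ne_zero, not_false_eq_true, zero_pow] at this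
      exact neg_eq_zero.1 this.symm
    exact hn (by exact_mod_cast h1)
  have hI : Ideal.span {s} ∈ nonZeroDivisors (Ideal (NumberField.RingOfIntegers K)) := by
    rw [mem_nonZeroDivisors_iff_ne_zero]
    intro h0
    rw [Ideal.zero_eq_bot, Ideal.span_singleton_eq_bot] at h0
    exact hs0 h0
  refine ⟨⟨Ideal.span {s}, hI⟩, ?_, ?_⟩
  · show Ideal.span {s} ^ 2 = _
    rw [Ideal.span_singleton_pow, hs, Ideal.span_singleton_neg]
  · rw [ClassGroup.mk0_eq_one_iff]
    exact ⟨⟨s, rfl⟩⟩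

theorem t_CL (h : S_LK) : S_CL := by
  intro K _ _ hK n t r s m hn h2 hz hpar hcl
  obtain ⟨hnm, h4, hok⟩ := hpar
  have hn0 : n ≠ 0 := by omega
  have hm0 : m ≠ 0 := by
    rintro rfl
    rw [hnm] at hn0
    split_ifs at hn0 <;> exact hn0 rfl
  have hmn : m ∣ n := by
    rw [hnm]
    split_ifs
    · exact Dvd.intro_left _ rfl
    · exact dvd_rfl
  have hmsq : Squarefree m := hn.squarefree_of_dvd hmn
  have hodd := Pool.Agent.N848.Q.odd_of (s := s) h4
  have hS := Pool.Agent.N848.Q.po_of hodd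
  have hU := Pool.Agent.N848.Q.uu_of hmsq h4
  have hpr := Vt_prime (t := t) hS
  have hV : (Vt t m.primeFactors).Nonempty := by
    by_cases ht : t = true
    · exact ⟨2, mem_Vt.2 (Or.inl ⟨ht, rfl⟩)⟩
    · obtain ⟨hr, hs⟩ := hok.1 (by simpa using ht)
      rw [hr, if_neg (by decide)] at hnm
      obtain ⟨p, hp⟩ := Nat.nonempty_primeFactors.2 (show 1 < m by omega)
      exact ⟨p, mem_Vt.2 (Or.inr hp)⟩
  refine h t r s m.primeFactors hS hok hU hV fun x hx => ?_
  set W := (Vt t m.primeFactors).filter (fun q => x q = 1) with hW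
  set B := ∏ q ∈ W, q with hB
  have hprW : ∀ q ∈ W, q.Prime := fun q hq => hpr q (mem_filter.1 hq).1
  have hBR : B ∣ Rn n := by
    rw [← prod_Vt hmsq hnm h4 hok hS]
    exact prod_dvd_prod_of_subset _ _ _ (filter_subset _ _)
  have hRn0 : Rn n ≠ 0 := by
    unfold Rn
    split_ifs <;> omega
  have hB0 : 1 ≤ B := Nat.one_le_iff_ne_zero.2 fun h0 => hRn0 (by
    rw [h0] at hBR
    exact Nat.eq_zero_of_zero_dvd hBR)
  -- the norm equation
  have huv : ∃ u v : ℚ, (B : ℚ) = u ^ 2 + n * v ^ 2 := by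
    by_cases hBn : B ∣ n
    · obtain ⟨c, hc⟩ := hBn
      have hsq : Squarefree (B * c) := hc ▸ hn
      have h5 : ∀ p : ℕ, p.Prime → p ≠ 2 → _ := fun p hp hp2 =>
        local_cond hm0 hmsq hnm hn hS hok hU x hx (e := 1) (b := B) (c := c) (Or.inl rfl)
          (by rw [one_mul]) hc hp hp2
      obtain ⟨u, v, huv⟩ := (Pool.Agent.Y168.FK.t_LEG.1 B c hsq).2
        ⟨fun p hp hp2 h6 => by simpa using (h5 p hp hp2).1 h6,
          fun p hp hp2 h6 => by simpa using (h5 p hp hp2).2 h6⟩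
      refine ⟨u, v, ?_⟩
      rw [huv, ← hc]
    · have hR : Rn n = 2 * n ∧ n % 4 = 1 := by
        by_cases h6 : n % 4 = 1
        · exact ⟨if_pos h6, h6⟩
        · exfalso
          apply hBn
          have h7 : Rn n = n := if_neg h6
          rwa [h7] at hBR
      rw [hR.1] at hBR
      have h2B : 2 ∣ B := by
        by_contra h6
        apply hBn
        have h7 : Nat.Coprime B 2 := ((Nat.Prime.coprime_iff_not_dvd Nat.prime_two).2 h6).symm
        exact h7.dvd_of_dvd_mul_left hBR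
      obtain ⟨b, hb⟩ := h2B
      have hbn : b ∣ n := by
        rw [hb] at hBR
        exact Nat.dvd_of_mul_dvd_mul_left (by norm_num) hBR
      obtain ⟨c, hc⟩ := hbn
      have hsq : Squarefree (b * c) := hc ▸ hn
      have hodd' : Odd (b * c) := by
        rw [← hc, Nat.odd_iff]
        omega
      have h5 : ∀ p : ℕ, p.Prime → p ≠ 2 → _ := fun p hp hp2 =>
        local_cond hm0 hmsq hnm hn hS hok hU x hx (e := 2) (b := b) (c := c) (Or.inr rfl)
          hb hc hp hp2
      have h2 : ∀ p : ℕ, p ∣ b * c → p ≠ 2 := by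
        rintro p h6 rfl
        rw [← hc] at h6
        omega
      obtain ⟨u, v, huv⟩ := (Pool.Agent.Y168.FK.t_LEG.2 b c hsq hodd').2
        ⟨fun p hp h6 => by
            have := (h5 p hp (h2 p (h6.mul_left _))).1 h6
            push_cast at this
            exact this,
          fun p hp h6 => by
            have := (h5 p hp (h2 p (h6.mul_right _))).2 h6
            push_cast at this
            exact this⟩
      refine ⟨u, v, ?_⟩
      rw [hb, huv, ← hc]
  -- the class
  obtain ⟨I, hI⟩ := (Pool.Agent.Y486.FK.t_AMB1 K hK n hn hz).1 B hBR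
  have hI2 : ClassGroup.mk0 I ^ 2 = 1 := by
    rw [← map_pow, ClassGroup.mk0_eq_one_iff]
    have h3 : ((I ^ 2 : nonZeroDivisors (Ideal (NumberField.RingOfIntegers K))) :
        Ideal (NumberField.RingOfIntegers K)) = (I : Ideal (NumberField.RingOfIntegers K)) ^ 2 := by
      push_cast
      rfl
    rw [h3, hI]
    exact ⟨⟨_, rfl⟩⟩
  obtain ⟨z, hz2⟩ := (Pool.Agent.Y629.FK.t_SQ K hK n hn hz B hB0 I hI).2 huv
  have hz4 : z ^ 4 = 1 := by
    rw [show (4 : ℕ) = 2 * 2 from rfl, pow_mul, hz2, hI2]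
  have hI1 : ClassGroup.mk0 I = 1 := by rw [← hz2]; exact hcl z hz4
  have hcard := Pool.Agent.Y688.FK.t_AMB2 Pool.Agent.Y486.FK.t_AMB1 K hK n hn hz 1 (one_pow 2)
  set F := (Rn n).divisors.filter fun b =>
      ∃ I : nonZeroDivisors (Ideal (NumberField.RingOfIntegers K)),
        (I : Ideal (NumberField.RingOfIntegers K)) ^ 2 =
            Ideal.span {((b : ℕ) : NumberField.RingOfIntegers K)} ∧
          ClassGroup.mk0 I = 1 with hF
  have hnR : n ∣ Rn n := by
    unfold Rn
    split_ifs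
    · exact Dvd.intro_left _ rfl
    · exact dvd_rfl
  have m1 : 1 ∈ F := by
    refine mem_filter.2 ⟨Nat.mem_divisors.2 ⟨one_dvd _, hRn0⟩, 1, ?_, map_one _⟩
    simp
  have mn : n ∈ F := mem_filter.2 ⟨Nat.mem_divisors.2 ⟨hnR, hRn0⟩, sqrt_ideal hn0 hz⟩
  have mB : B ∈ F := mem_filter.2 ⟨Nat.mem_divisors.2 ⟨hBR, hRn0⟩, I, hI, hI1⟩
  have hBor : B = 1 ∨ B = n := by
    by_contra hne
    push Not at hne
    have h5 : ({1, n, B} : Finset ℕ) ⊆ F := by
      intro a ha
      simp only [mem_insert, mem_singleton] at ha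
      rcases ha with rfl | rfl | rfl
      · exact m1
      · exact mn
      · exact mB
    have h6 := card_le_card h5
    rw [hcard, card_eq_three.2 ⟨1, n, B, by omega, hne.1.symm, hne.2.symm, rfl⟩] at h6
    omega
  rcases hBor with hB1 | hBn
  · left
    intro p hp
    refine (z2 _).resolve_right fun h5 => ?_
    have h6 : p ∣ B := dvd_prod_of_mem _ (mem_filter.2 ⟨hp, h5⟩)
    rw [hB1] at h6
    exact (hpr p hp).one_lt.ne' (Nat.dvd_one.1 h6)
  · right
    intro p hp
    have hdv : ∀ q : ℕ, q.Prime → (q ∣ n ↔ q ∈ W) := by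
      intro q hq
      rw [← hBn, hB]
      exact dvd_prod_iff hq _ hprW
    rcases mem_Vt.1 hp with ⟨ht, rfl⟩ | hp'
    · rw [if_pos rfl]
      rcases z2 r with hr | hr
      · rw [hr]
        rw [hr, if_neg (by decide)] at hnm
        refine (z2 _).resolve_right fun h5 => ?_
        have h6 := (hdv 2 Nat.prime_two).2 (mem_filter.2 ⟨hp, h5⟩)
        omega
      · rw [hr]
        rw [hr, if_pos rfl] at hnm
        exact (mem_filter.1 ((hdv 2 Nat.prime_two).1 ⟨m, hnm⟩)).2
    · rw [if_neg (hS p hp').2]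
      exact (mem_filter.1 ((hdv p (hS p hp').1).1
        ((Nat.dvd_of_mem_primeFactors hp').trans hmn))).2

end Pool.Agent.U375.XM
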